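import Pool.Agent.H68.Amp.UFinal

set_option autoImplicit false

/-!
# MP_08ffb4_an, Q1 (negative answer)

There is a II₁ factor `M` such that for every free ultrafilter `ω` on `ℕ` and every `t > 1` the
amplification `M^t` has no unital ⋆-homomorphism into the ultrapower `M^ω`.
-/

open Filter Topology H80VN Pool.Agent.H68.Amp

theorem Pool.Agent.Results.MP_08ffb4_an.NoAmplification.result :
    ∃ (M : Type) (_ : CStarAlgebra M) (τ : M →ₗ[ℂ] ℂ) (h : Stmt.IsII1Factor τ),
      (∀ ω : Ultrafilter ℕ, (ω : Filter ℕ) ≤ cofinite →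
        ∀ (n : ℕ) (p : Matrix (Fin (n + 1)) (Fin (n + 1)) M) (hp : BigProj p),
            ¬ CrnEmbeds p hp.toIsProj (UPow (vn h) (ω : Filter ℕ))) ∧
      ∀ t : ℝ, 1 < t → ∃ (n : ℕ) (p : Matrix (Fin (n + 1)) (Fin (n + 1)) M), BigProj p ∧
        TrMat τ p = t :=
  final_amp
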